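import Mathlib

/-!
Entire functions on a finite dimensional complex space: smoothness, identity theorem.
-/

namespace Pool.Agent.Helper88.JT

open Filter Topology Metric MeasureTheory

section

variable {V : Type*} [NormedAddCommGroup V] [NormedSpace ℂ V]

theorem hasDerivAt_line {F : V → ℂ} (hF : Differentiable ℂ F) (z b : V) (s : ℂ) :
    HasDerivAt (fun s : ℂ => F (z + s • b)) (fderiv ℂ F (z + s • b) b) s := by
  have h : HasDerivAt (fun s : ℂ => z + s • b) b s := by
    simpa using ((hasDerivAt_id s).smul_const b).const_add z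
  exact ((hF (z + s • b)).hasFDerivAt).comp_hasDerivAt s h

theorem differentiable_line {F : V → ℂ} (hF : Differentiable ℂ F) (z b : V) :
    Differentiable ℂ (fun s : ℂ => F (z + s • b)) :=
  fun s => (hasDerivAt_line hF z b s).differentiableAt

theorem deriv_line {F : V → ℂ} (hF : Differentiable ℂ F) (z b : V) (s : ℂ) :
    deriv (fun s : ℂ => F (z + s • b)) s = fderiv ℂ F (z + s • b) b :=
  (hasDerivAt_line hF z b s).deriv

theorem deriv_line_zero {F : V → ℂ} (hF : Differentiable ℂ F) (z b : V) :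
    deriv (fun s : ℂ => F (z + s • b)) 0 = fderiv ℂ F z b := by
  rw [deriv_line hF, zero_smul, add_zero]

/-- Cauchy's estimate for the derivative of an entire function of several variables. -/
theorem norm_fderiv_apply_le {F : V → ℂ} (hF : Differentiable ℂ F) {z b : V} {r M : ℝ}
    (hr : 0 < r) (hM : ∀ s : ℂ, ‖s‖ = r → ‖F (z + s • b)‖ ≤ M) : ‖fderiv ℂ F z b‖ ≤ M / r := by
  rw [← deriv_line_zero hF]
  refine Complex.norm_deriv_le_of_forall_mem_sphere_norm_le hr
    (differentiable_line hF z b).diffContOnCl fun s hs => hM s ?_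
  simpa using hs

theorem norm_fderiv_le {F : V → ℂ} (hF : Differentiable ℂ F) {z : V} {r M : ℝ} (hr : 0 < r)
    (hM0 : 0 ≤ M) (hM : ∀ w, ‖w‖ ≤ r → ‖F (z + w)‖ ≤ M) : ‖fderiv ℂ F z‖ ≤ M / r := by
  refine ContinuousLinearMap.opNorm_le_bound _ (by positivity) fun b => ?_
  rcases eq_or_ne b 0 with rfl | hb
  · simp
  have hb' : 0 < ‖b‖ := norm_pos_iff.2 hb
  have h1 := norm_fderiv_apply_le hF (z := z) (b := b) (r := r / ‖b‖) (M := M) (by positivity)
    (fun s hs => hM _ (by rw [norm_smul, hs, div_mul_cancel₀ _ hb'.ne']))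
  calc ‖fderiv ℂ F z b‖ ≤ M / (r / ‖b‖) := h1
    _ = M / r * ‖b‖ := by field_simp

/-- The derivative is locally bounded. -/
theorem exists_bound_fderiv [FiniteDimensional ℂ V] {F : V → ℂ} (hF : Differentiable ℂ F)
    (z₀ : V) (R : ℝ) : ∃ C : ℝ, 0 ≤ C ∧ ∀ z, ‖z - z₀‖ ≤ R → ‖fderiv ℂ F z‖ ≤ C := by
  have : ProperSpace V := FiniteDimensional.proper ℂ V
  obtain ⟨M, hM⟩ := (isCompact_closedBall z₀ (R + 1)).exists_bound_of_continuousOn
    hF.continuous.continuousOn
  refine ⟨max M 0, le_max_right _ _, fun z hz => ?_⟩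
  have h1 := norm_fderiv_le hF (z := z) (r := 1) (M := max M 0) one_pos (le_max_right _ _)
    (fun w hw => (hM _ ?_).trans (le_max_left _ _))
  · simpa using h1
  · rw [mem_closedBall, dist_eq_norm]
    calc ‖z + w - z₀‖ = ‖(z - z₀) + w‖ := by congr 1; abel
      _ ≤ ‖z - z₀‖ + ‖w‖ := norm_add_le _ _
      _ ≤ R + 1 := by linarith

/-- Directional derivatives of entire functions are entire. -/
theorem differentiable_fderiv_apply [FiniteDimensional ℂ V] {F : V → ℂ}
    (hF : Differentiable ℂ F) (b : V) : Differentiable ℂ (fun z => fderiv ℂ F z b) := by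
  have hprop : ProperSpace V := FiniteDimensional.proper ℂ V
  have hsc : SecondCountableTopology V := secondCountable_of_proper
  borelize V
  -- Cauchy's formula
  have hC : ∀ z, fderiv ℂ F z b = (2 * Real.pi * Complex.I : ℂ)⁻¹ *
      ∮ s in C((0 : ℂ), 1), (s ^ 2)⁻¹ • F (z + s • b) := by
    intro z
    rw [← deriv_line_zero hF]
    have h1 := Complex.two_pi_I_inv_smul_circleIntegral_sub_sq_inv_smul_of_differentiable
      (f := fun s : ℂ => F (z + s • b)) (U := Set.univ) isOpen_univ (c := 0) (w₀ := 0) (R := 1)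
      (Set.subset_univ _) (differentiable_line hF z b).differentiableOn (by simp)
    rw [← h1]
    simp
  have hfun : (fun z => fderiv ℂ F z b) = fun z => (2 * Real.pi * Complex.I : ℂ)⁻¹ *
      ∮ s in C((0 : ℂ), 1), (s ^ 2)⁻¹ • F (z + s • b) := funext hC
  rw [hfun]
  intro z₀
  refine DifferentiableAt.const_mul ?_ _
  obtain ⟨C, hC0, hCb⟩ := exists_bound_fderiv hF z₀ (1 + ‖b‖)
  unfold circleIntegral
  have hcm : ∀ θ : ℝ, ‖circleMap 0 1 θ‖ = 1 := by
    intro θ
    simp
  have key := intervalIntegral.hasFDerivAt_integral_of_dominated_of_fderiv_le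
    (μ := volume) (a := 0) (b := 2 * Real.pi) (𝕜 := ℂ)
    (F := fun (z : V) (θ : ℝ) => deriv (circleMap 0 1) θ •
      (fun s : ℂ => (s ^ 2)⁻¹ • F (z + s • b)) (circleMap 0 1 θ))
    (F' := fun (z : V) (θ : ℝ) => (deriv (circleMap 0 1) θ * ((circleMap 0 1 θ) ^ 2)⁻¹) •
      fderiv ℂ F (z + (circleMap 0 1 θ) • b))
    (x₀ := z₀) (s := ball z₀ 1) (bound := fun _ => C) (ball_mem_nhds z₀ one_pos) ?_ ?_ ?_ ?_ ?_ ?_
  · exact key.differentiableAt
  · refine Eventually.of_forall fun z => ?_
    refine Continuous.aestronglyMeasurable ?_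
    have h1 : Continuous fun θ : ℝ => deriv (circleMap (0 : ℂ) 1) θ := by
      simp only [deriv_circleMap]
      fun_prop
    have h2 : Continuous fun θ : ℝ => ((circleMap (0 : ℂ) 1 θ) ^ 2)⁻¹ :=
      Continuous.inv₀ (by fun_prop) fun θ => by
        apply pow_ne_zero
        rw [← norm_ne_zero_iff, hcm]
        exact one_ne_zero
    have h3 : Continuous fun θ : ℝ => F (z + (circleMap (0 : ℂ) 1 θ) • b) :=
      hF.continuous.comp (by fun_prop)
    exact h1.smul (h2.smul h3)
  · refine Continuous.intervalIntegrable ?_ _ _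
    have h1 : Continuous fun θ : ℝ => deriv (circleMap (0 : ℂ) 1) θ := by
      simp only [deriv_circleMap]
      fun_prop
    have h2 : Continuous fun θ : ℝ => ((circleMap (0 : ℂ) 1 θ) ^ 2)⁻¹ :=
      Continuous.inv₀ (by fun_prop) fun θ => by
        apply pow_ne_zero
        rw [← norm_ne_zero_iff, hcm]
        exact one_ne_zero
    have h3 : Continuous fun θ : ℝ => F (z₀ + (circleMap (0 : ℂ) 1 θ) • b) :=
      hF.continuous.comp (by fun_prop)
    exact h1.smul (h2.smul h3)
  · have h1 : Continuous fun θ : ℝ => deriv (circleMap (0 : ℂ) 1) θ *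
        ((circleMap (0 : ℂ) 1 θ) ^ 2)⁻¹ := by
      have ha : Continuous fun θ : ℝ => deriv (circleMap (0 : ℂ) 1) θ := by
        simp only [deriv_circleMap]
        fun_prop
      refine ha.mul ?_
      exact Continuous.inv₀ (by fun_prop) fun θ => by
        apply pow_ne_zero
        rw [← norm_ne_zero_iff, hcm]
        exact one_ne_zero
    refine AEStronglyMeasurable.smul h1.aestronglyMeasurable ?_
    have h2 : Measurable fun θ : ℝ => fderiv ℂ F (z₀ + (circleMap (0 : ℂ) 1 θ) • b) := by
      refine (measurable_fderiv ℂ F).comp ?_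
      exact Continuous.measurable (by fun_prop)
    exact h2.aestronglyMeasurable
  · refine Eventually.of_forall fun θ _ z hz => ?_
    rw [norm_smul, norm_mul, norm_inv, norm_pow, hcm, deriv_circleMap, norm_mul, hcm]
    simp only [Complex.norm_I, one_pow, inv_one, mul_one, one_mul]
    refine hCb _ ?_
    rw [mem_ball, dist_eq_norm] at hz
    calc ‖z + circleMap 0 1 θ • b - z₀‖ = ‖(z - z₀) + circleMap 0 1 θ • b‖ := by congr 1; abel
      _ ≤ ‖z - z₀‖ + ‖circleMap 0 1 θ • b‖ := norm_add_le _ _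
      _ ≤ 1 + ‖b‖ := by
        rw [norm_smul, hcm, one_mul]
        linarith
  · exact intervalIntegrable_const
  · refine Eventually.of_forall fun θ _ z _ => ?_
    have h1 : HasFDerivAt (fun z : V => z + circleMap 0 1 θ • b) (ContinuousLinearMap.id ℂ V) z :=
      (hasFDerivAt_id z).add_const _
    have h2 := ((hF (z + circleMap 0 1 θ • b)).hasFDerivAt.comp z h1)
    rw [ContinuousLinearMap.comp_id] at h2
    have h3 := h2.const_smul (deriv (circleMap 0 1) θ * ((circleMap 0 1 θ) ^ 2)⁻¹)
    refine h3.congr_of_eventuallyEq (Eventually.of_forall fun w => ?_)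
    simp [mul_assoc]

/-- Entire functions on a finite dimensional space are smooth. -/
theorem contDiff_nat [FiniteDimensional ℂ V] (n : ℕ) : ∀ {F : V → ℂ},
    Differentiable ℂ F → ContDiff ℂ n F := by
  induction n with
  | zero =>
    intro F hF
    exact contDiff_zero.2 hF.continuous
  | succ n ih =>
    intro F hF
    rw [Nat.cast_add, Nat.cast_one, contDiff_succ_iff_fderiv_apply]
    exact ⟨hF, by simp, fun b => ih (differentiable_fderiv_apply hF b)⟩

theorem contDiff [FiniteDimensional ℂ V] {F : V → ℂ} (hF : Differentiable ℂ F) :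
    ContDiff ℂ (⊤ : ℕ∞) F :=
  contDiff_infty.2 fun n => contDiff_nat n hF

theorem differentiable_fderiv [FiniteDimensional ℂ V] {F : V → ℂ} (hF : Differentiable ℂ F) :
    Differentiable ℂ (fderiv ℂ F) :=
  ((contDiff_nat 2 hF).fderiv_right (m := 1) (by norm_num)).differentiable (by norm_num)

theorem continuous_fderiv [FiniteDimensional ℂ V] {F : V → ℂ} (hF : Differentiable ℂ F) :
    Continuous (fderiv ℂ F) := (differentiable_fderiv hF).continuous

/-- Symmetry of second derivatives. -/
theorem fderiv_fderiv_symm [FiniteDimensional ℂ V] {F : V → ℂ} (hF : Differentiable ℂ F)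
    (z a b : V) : fderiv ℂ (fun z => fderiv ℂ F z a) z b =
      fderiv ℂ (fun z => fderiv ℂ F z b) z a := by
  have h1 : ∀ c, fderiv ℂ (fun z => fderiv ℂ F z c) z = (fderiv ℂ (fderiv ℂ F) z).flip c := by
    intro c
    ext d
    rw [fderiv_clm_apply (differentiable_fderiv hF z) (differentiableAt_const c)]
    simp
  rw [h1, h1]
  have h2 : IsSymmSndFDerivAt ℂ F z :=
    (contDiff_nat 2 hF).contDiffAt.isSymmSndFDerivAt (by simp)
  simp only [ContinuousLinearMap.flip_apply]
  exact h2 b a

end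

section Identity

variable {V : Type*} [NormedAddCommGroup V] [NormedSpace ℂ V]

/-- Identity theorem: an entire function vanishing near a point vanishes identically. -/
theorem eq_zero_of_eventually {F : V → ℂ} (hF : Differentiable ℂ F) {z₀ : V}
    (h : ∀ᶠ z in 𝓝 z₀, F z = 0) (z : V) : F z = 0 := by
  have h1 : AnalyticOnNhd ℂ (fun s : ℂ => F (z₀ + s • (z - z₀))) Set.univ :=
    fun s _ => (differentiable_line hF z₀ (z - z₀)).analyticAt s
  have h2 : Tendsto (fun s : ℂ => z₀ + s • (z - z₀)) (𝓝 0) (𝓝 z₀) := by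
    have : Continuous (fun s : ℂ => z₀ + s • (z - z₀)) := by fun_prop
    simpa using this.tendsto 0
  have h3 := h1.eqOn_zero_of_preconnected_of_eventuallyEq_zero isPreconnected_univ
    (Set.mem_univ 0) (h2.eventually h)
  have h4 := h3 (Set.mem_univ 1)
  simpa using h4

/-- The set where a nonzero entire function does not vanish is dense. -/
theorem frequently_ne_zero {F : V → ℂ} (hF : Differentiable ℂ F) (h : ∃ z, F z ≠ 0) (z₀ : V) :
    ∃ᶠ z in 𝓝 z₀, F z ≠ 0 := by
  intro hc
  obtain ⟨z, hz⟩ := h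
  refine hz (eq_zero_of_eventually hF (z₀ := z₀) ?_ z)
  simpa using hc

theorem dense_ne_zero {F : V → ℂ} (hF : Differentiable ℂ F) (h : ∃ z, F z ≠ 0) :
    Dense {z | F z ≠ 0} := by
  intro z₀
  rw [mem_closure_iff_frequently]
  exact frequently_ne_zero hF h z₀

theorem exists_mul_ne_zero {F G : V → ℂ} (hF : Differentiable ℂ F) (hG : Differentiable ℂ G)
    (h : ∃ z, F z ≠ 0) (h' : ∃ z, G z ≠ 0) : ∃ z, F z * G z ≠ 0 := by
  obtain ⟨z₀, hz₀⟩ := h
  have h1 : ∀ᶠ z in 𝓝 z₀, F z ≠ 0 := hF.continuous.continuousAt.eventually_ne hz₀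
  obtain ⟨z, hz1, hz2⟩ := ((frequently_ne_zero hG h' z₀).and_eventually h1).exists
  exact ⟨z, mul_ne_zero hz2 hz1⟩

end Identity

end Pool.Agent.Helper88.JT
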