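import Pool.Agent.Helper7.JT.Base

/-!
Fourier uniqueness on the torus, from the orthogonality of the characters.
-/

namespace Pool.Agent.Helper7.JT

open MeasureTheory Module Filter Topology Asymptotics

section

variable {V : Type} [NormedAddCommGroup V] [InnerProductSpace ℂ V]

theorem continuous_Ef_left (y : V) : Continuous (fun x : V => Ef x y) := by
  unfold Ef Hm
  exact Complex.continuous_im.comp (continuous_const.inner continuous_id)

theorem continuous_char (t : ℝ) (y : V) :
    Continuous (fun x : V => Complex.exp (((2 * Real.pi * t * Ef x y : ℝ) : ℂ) * Complex.I)) := by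
  refine Complex.continuous_exp.comp (Continuous.mul ?_ continuous_const)
  exact Complex.continuous_ofReal.comp (continuous_const.mul (continuous_Ef_left y))

theorem norm_char (t : ℝ) (x y : V) :
    ‖Complex.exp (((2 * Real.pi * t * Ef x y : ℝ) : ℂ) * Complex.I)‖ = 1 :=
  Complex.norm_exp_ofReal_mul_I _

end

section

variable {V : Type} [NormedAddCommGroup V] [InnerProductSpace ℂ V] [FiniteDimensional ℂ V]
  [MeasurableSpace V] [BorelSpace V]

instance vol_isAddHaar : (vol V).IsAddHaarMeasure := by
  let : InnerProductSpace ℝ V := InnerProductSpace.complexToReal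
  unfold vol
  infer_instance

/-- A bounded measurable fundamental domain of positive finite volume. -/
theorem exists_fundDomain (L : Submodule ℤ V) [DiscreteTopology L] [IsZLattice ℝ L] :
    ∃ D : Set V, IsAddFundamentalDomain L D (vol V) ∧ Bornology.IsBounded D ∧ MeasurableSet D ∧
      (vol V D) ≠ 0 ∧ (vol V D) ≠ ⊤ := by
  have hfin : FiniteDimensional ℝ V := FiniteDimensional.complexToReal V
  have hprop : ProperSpace V := FiniteDimensional.proper ℂ V
  let b := Module.Free.chooseBasis ℤ L
  have hbd : Bornology.IsBounded (ZSpan.fundamentalDomain (b.ofZLatticeBasis ℝ)) :=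
    ZSpan.fundamentalDomain_isBounded _
  refine ⟨ZSpan.fundamentalDomain (b.ofZLatticeBasis ℝ), ZLattice.isAddFundamentalDomain b _,
    hbd, ZSpan.fundamentalDomain_measurableSet _,
    ZSpan.measure_fundamentalDomain_ne_zero _, hbd.measure_lt_top.ne⟩

end

/-- Uniqueness of absolutely convergent Fourier series on the torus. -/
theorem fourier_unique (hO : StOrth) {V : Type} [NormedAddCommGroup V] [InnerProductSpace ℂ V]
    [FiniteDimensional ℂ V] (L : Submodule ℤ V) [DiscreteTopology L] [IsZLattice ℝ L]
    (hI : IntT L 1) (c : L → ℂ) (hc : Summable fun l => ‖c l‖)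
    (h : ∀ u : V, ∑' l : L, c l *
      Complex.exp (((2 * Real.pi * Ef u (l : V) : ℝ) : ℂ) * Complex.I) = 0) (m : L) : c m = 0 := by
  borelize V
  obtain ⟨D, hD, hDb, hDm, hD0, hDt⟩ := exists_fundDomain L
  have hcountL : Countable L := inferInstance
  -- the functions to be integrated
  set F : L → V → ℂ := fun l u => c l *
    Complex.exp (((2 * Real.pi * 1 * Ef u ((l : V) - m) : ℝ) : ℂ) * Complex.I) with hF
  have hFcont : ∀ l, Continuous (F l) := fun l => continuous_const.mul (continuous_char 1 _)
  have hFn : ∀ l u, ‖F l u‖ = ‖c l‖ := by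
    intro l u
    rw [hF]
    simp only
    rw [norm_mul, norm_char, mul_one]
  have : IsFiniteMeasure ((vol V).restrict D) := ⟨by
    rw [Measure.restrict_apply_univ]
    exact lt_top_iff_ne_top.2 hDt⟩
  have hFint : ∀ l, Integrable (F l) ((vol V).restrict D) := fun l =>
    Integrable.of_bound (hFcont l).aestronglyMeasurable ‖c l‖
      (Eventually.of_forall fun u => (hFn l u).le)
  have hsum : Summable fun l => ∫ u, ‖F l u‖ ∂((vol V).restrict D) := by
    simp only [hFn, integral_const]
    exact (hc.mul_left _).congr fun l => by rw [smul_eq_mul]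
  have h1 := hasSum_integral_of_summable_integral_norm hFint hsum
  have h2 : ∀ u, ∑' l, F l u = 0 := by
    intro u
    have e : ∀ l, F l u = c l * Complex.exp (((2 * Real.pi * Ef u (l : V) : ℝ) : ℂ) * Complex.I) *
        Complex.exp (-((2 * Real.pi * Ef u (m : V) : ℝ) : ℂ) * Complex.I) := by
      intro l
      rw [hF]
      simp only
      rw [mul_assoc (c l), ← Complex.exp_add, Ef_sub_right]
      congr 2
      push_cast
      ring
    simp only [e]
    rw [tsum_mul_right, h u, zero_mul]
  simp only [h2, integral_zero] at h1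
  have h3 : ∀ l : L, l ≠ m → ∫ u, F l u ∂((vol V).restrict D) = 0 := by
    intro l hl
    have h4 := hO V L 1 D one_pos hI hD hDb ((l : V) - m) (L.sub_mem l.2 m.2)
      (fun h0 => hl (Subtype.ext (sub_eq_zero.1 h0)))
    rw [hF]
    simp only
    rw [integral_const_mul, h4, mul_zero]
  have h5 : HasSum (fun l => ∫ u, F l u ∂((vol V).restrict D))
      (∫ u, F m u ∂((vol V).restrict D)) := by
    exact hasSum_single m h3
  have h6 := h1.unique h5
  have h7 : ∫ u, F m u ∂((vol V).restrict D) = c m * ((vol V).real D : ℂ) := by
    rw [hF]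
    simp only [sub_self, Ef_zero_right, mul_zero, Complex.ofReal_zero, zero_mul, Complex.exp_zero,
      mul_one]
    rw [integral_const]
    simp [mul_comm]
  rw [h7] at h6
  rcases mul_eq_zero.1 h6.symm with h8 | h8
  · exact h8
  · exfalso
    have : (vol V).real D ≠ 0 := by
      rw [Measure.real, ENNReal.toReal_ne_zero]
      exact ⟨hD0, hDt⟩
    exact this (by exact_mod_cast h8)

end Pool.Agent.Helper7.JT
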