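import Pool.Agent.Helper7.JT.Base
import Pool.Agent.Helper88.JT.Holo

/-!
Products of three translates of a theta function, and their `2`-jets at the origin.
-/

namespace Pool.Agent.Helper7.JT

open MeasureTheory Module Filter Topology Asymptotics

section Translates

variable {V : Type} [NormedAddCommGroup V] [InnerProductSpace ℂ V]

theorem Tr_zero_apply (t : ℝ) (u : V) (F : V → ℂ) :
    Tr t u F 0 = ((Real.exp (-(Real.pi * t / 2 * ‖u‖ ^ 2)) : ℝ) : ℂ) * F u := by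
  rw [Tr_apply, Hm_zero_left, zero_add, mul_zero, neg_zero, zero_sub]
  push_cast
  rfl

theorem fderiv_Tr_zero (t : ℝ) {u : V} {F : V → ℂ} (hF : Differentiable ℂ F) (hu : F u = 0)
    (b : V) : fderiv ℂ (Tr t u F) 0 b =
      ((Real.exp (-(Real.pi * t / 2 * ‖u‖ ^ 2)) : ℝ) : ℂ) * fderiv ℂ F u b := by
  have h1 : Differentiable ℂ (fun z : V => Hm z u) := by
    have : (fun z : V => Hm z u) = fun z => (innerSL ℂ u) z := by
      funext z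
      simp [Hm]
    rw [this]
    exact (innerSL ℂ u).differentiable
  have h2 : Differentiable ℂ (fun z : V => F (z + u)) := hF.comp (differentiable_id.add_const u)
  have h3 : Differentiable ℂ (fun z : V => Complex.exp (-(((Real.pi * t : ℝ) : ℂ) * Hm z u) -
      ((Real.pi * t / 2 * ‖u‖ ^ 2 : ℝ) : ℂ))) := ((h1.const_mul _).neg.sub_const _).cexp
  have h4 : fderiv ℂ (Tr t u F) 0 = Complex.exp (-(((Real.pi * t : ℝ) : ℂ) * Hm (0 : V) u) -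
      ((Real.pi * t / 2 * ‖u‖ ^ 2 : ℝ) : ℂ)) • fderiv ℂ (fun z : V => F (z + u)) 0 +
      F (0 + u) • fderiv ℂ (fun z : V => Complex.exp (-(((Real.pi * t : ℝ) : ℂ) * Hm z u) -
      ((Real.pi * t / 2 * ‖u‖ ^ 2 : ℝ) : ℂ))) 0 := by
    exact fderiv_mul (h3 0) (h2 0)
  rw [h4, zero_add, hu, Hm_zero_left, mul_zero, neg_zero, zero_sub, add_apply,
    smul_apply, smul_apply, smul_eq_mul, smul_eq_mul, zero_mul, add_zero]
  rw [show fderiv ℂ (fun z : V => F (z + u)) 0 = fderiv ℂ F (0 + u) from fderiv_comp_add_right u,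
    zero_add]
  push_cast
  rfl

/-- `T_l T_u θ = χ(l) exp (2 pi i t E(u,l)) T_u θ`. -/
theorem Tr_Tr_sec {L : Submodule ℤ V} {t : ℝ} {χ θ : V → ℂ} (hθ : IsSec L t χ θ) {l : V}
    (hl : l ∈ L) (u z : V) : Tr t l (Tr t u θ) z =
      χ l * Complex.exp (((2 * Real.pi * t * Ef u l : ℝ) : ℂ) * Complex.I) * Tr t u θ z := by
  have h1 := Tr_Tr t l u θ z
  have h2 := Tr_Tr t u l θ z
  have h3 : Tr t l θ = fun z => χ l * θ z := by
    funext w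
    exact ((isSec_iff_Tr L t χ θ).1 hθ).2 l hl w
  have h4 : Tr t u (Tr t l θ) z = χ l * Tr t u θ z := by
    rw [h3, Tr_apply, Tr_apply]
    ring
  rw [h4, add_comm u l] at h2
  have h5 : Tr t (l + u) θ z = Complex.exp (((Real.pi * t * Ef u l : ℝ) : ℂ) * Complex.I) *
      (χ l * Tr t u θ z) := by
    rw [h2, ← mul_assoc, ← Complex.exp_add]
    simp
  rw [h1, h5, ← mul_assoc, ← Complex.exp_add, Ef_swap l u]
  rw [show -((Real.pi * t * -Ef u l : ℝ) : ℂ) * Complex.I +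
      ((Real.pi * t * Ef u l : ℝ) : ℂ) * Complex.I =
      ((2 * Real.pi * t * Ef u l : ℝ) : ℂ) * Complex.I by push_cast; ring]
  ring

/-- The product of three translates of weight `1`. -/
noncomputable def T3 (θ : V → ℂ) (u₁ u₂ u₃ : V) : V → ℂ :=
  fun z => Tr 1 u₁ θ z * Tr 1 u₂ θ z * Tr 1 u₃ θ z

theorem T3_differentiable {θ : V → ℂ} (hθ : Differentiable ℂ θ) (u₁ u₂ u₃ : V) :
    Differentiable ℂ (T3 θ u₁ u₂ u₃) :=
  ((Tr_differentiable 1 u₁ hθ).mul (Tr_differentiable 1 u₂ hθ)).mul (Tr_differentiable 1 u₃ hθ)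

theorem Tr_mul3 (l : V) (f g h : V → ℂ) (z : V) :
    Tr 3 l (fun z => f z * g z * h z) z = Tr 1 l f z * Tr 1 l g z * Tr 1 l h z := by
  simp only [Tr_apply]
  have h1 : Complex.exp (-(((Real.pi * 3 : ℝ) : ℂ) * Hm z l) -
      ((Real.pi * 3 / 2 * ‖l‖ ^ 2 : ℝ) : ℂ)) =
      Complex.exp (-(((Real.pi * 1 : ℝ) : ℂ) * Hm z l) -
      ((Real.pi * 1 / 2 * ‖l‖ ^ 2 : ℝ) : ℂ)) * Complex.exp (-(((Real.pi * 1 : ℝ) : ℂ) * Hm z l) -
      ((Real.pi * 1 / 2 * ‖l‖ ^ 2 : ℝ) : ℂ)) * Complex.exp (-(((Real.pi * 1 : ℝ) : ℂ) * Hm z l) -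
      ((Real.pi * 1 / 2 * ‖l‖ ^ 2 : ℝ) : ℂ)) := by
    rw [← Complex.exp_add, ← Complex.exp_add]
    congr 1
    push_cast
    ring
  rw [h1]
  ring

theorem Tr3_T3 {L : Submodule ℤ V} {χ θ : V → ℂ} (hθ : IsSec L 1 χ θ) {l : V}
    (hl : l ∈ L) (u₁ u₂ u₃ z : V) : Tr 3 l (T3 θ u₁ u₂ u₃) z =
      χ l ^ 3 * Complex.exp (((2 * Real.pi * Ef (u₁ + u₂ + u₃) l : ℝ) : ℂ) * Complex.I) *
        T3 θ u₁ u₂ u₃ z := by
  have h1 := Tr_mul3 l (Tr 1 u₁ θ) (Tr 1 u₂ θ) (Tr 1 u₃ θ) z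
  rw [Tr_Tr_sec hθ hl, Tr_Tr_sec hθ hl, Tr_Tr_sec hθ hl] at h1
  have h2 : Complex.exp (((2 * Real.pi * Ef (u₁ + u₂ + u₃) l : ℝ) : ℂ) * Complex.I) =
      Complex.exp (((2 * Real.pi * 1 * Ef u₁ l : ℝ) : ℂ) * Complex.I) *
      Complex.exp (((2 * Real.pi * 1 * Ef u₂ l : ℝ) : ℂ) * Complex.I) *
      Complex.exp (((2 * Real.pi * 1 * Ef u₃ l : ℝ) : ℂ) * Complex.I) := by
    rw [← Complex.exp_add, ← Complex.exp_add, Ef_add_left, Ef_add_left]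
    congr 1
    push_cast
    ring
  rw [h2]
  refine Eq.trans h1 ?_
  simp only [T3]
  ring

end Translates

section Jets

variable {V : Type} [NormedAddCommGroup V] [InnerProductSpace ℂ V] [FiniteDimensional ℂ V]

/-- The quadratic part of a functional on `2`-jets, polarised. -/
noncomputable def Bq (q : Idx V → ℂ) (a b : V →L[ℂ] ℂ) : ℂ :=
  ∑ p : {p : Fin (finrank ℂ V) × Fin (finrank ℂ V) // p.1 ≤ p.2}, q (Sum.inr (Sum.inr p)) *
    (a (ob p.1.1) * b (ob p.1.2) + a (ob p.1.2) * b (ob p.1.1))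

theorem Bq_symm (q : Idx V → ℂ) (a b : V →L[ℂ] ℂ) : Bq q a b = Bq q b a := by
  unfold Bq
  refine Finset.sum_congr rfl fun p _ => ?_
  ring

/-- The vector representing `a ↦ Bq q a b`. -/
noncomputable def Bv (q : Idx V → ℂ) (b : V →L[ℂ] ℂ) : V :=
  ∑ p : {p : Fin (finrank ℂ V) × Fin (finrank ℂ V) // p.1 ≤ p.2}, q (Sum.inr (Sum.inr p)) •
    (b (ob p.1.2) • ob p.1.1 + b (ob p.1.1) • ob p.1.2)

theorem apply_Bv (q : Idx V → ℂ) (a b : V →L[ℂ] ℂ) : a (Bv q b) = Bq q a b := by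
  unfold Bv Bq
  rw [map_sum]
  refine Finset.sum_congr rfl fun p _ => ?_
  rw [map_smul, map_add, map_smul, map_smul]
  simp only [smul_eq_mul]
  ring

theorem Bq_zero {q : Idx V → ℂ} {G : Set (V →L[ℂ] ℂ)} (hG : ∀ v : V, v ≠ 0 → ∃ k ∈ G, k v ≠ 0)
    (h : ∀ a ∈ G, ∀ b ∈ G, Bq q a b = 0) (p : {p : Fin (finrank ℂ V) × Fin (finrank ℂ V) //
      p.1 ≤ p.2}) : q (Sum.inr (Sum.inr p)) = 0 := by
  have h1 : ∀ b ∈ G, Bv q b = 0 := by
    intro b hb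
    by_contra hne
    obtain ⟨a, ha, ha'⟩ := hG _ hne
    rw [apply_Bv] at ha'
    exact ha' (h a ha b hb)
  have h2 : ∀ a : V →L[ℂ] ℂ, Bv q a = 0 := by
    intro a
    by_contra hne
    obtain ⟨b, hb, hb'⟩ := hG _ hne
    rw [apply_Bv, Bq_symm, ← apply_Bv, h1 b hb, map_zero] at hb'
    exact hb' rfl
  have h3 : Bq q (innerSL ℂ (ob (V := V) p.1.1)) (innerSL ℂ (ob (V := V) p.1.2)) = 0 := by
    rw [← apply_Bv, h2, map_zero]
  have h4 : ∀ i j, inner ℂ (ob (V := V) i) (ob (V := V) j) = if i = j then (1 : ℂ) else 0 :=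
    fun i j => orthonormal_iff_ite.1 (ob (V := V)).orthonormal i j
  unfold Bq at h3
  rw [Finset.sum_eq_single p] at h3
  · simp only [innerSL_apply_apply, h4, if_true] at h3
    rcases mul_eq_zero.1 h3 with h5 | h5
    · exact h5
    · exfalso
      split_ifs at h5 with h6 <;> norm_num at h5
  · intro r _ hr
    have h7 : ¬ (p.1.1 = r.1.1 ∧ p.1.2 = r.1.2) := fun hh =>
      hr (Subtype.ext (Prod.ext hh.1.symm hh.2.symm))
    have h8 : ¬ (p.1.1 = r.1.2 ∧ p.1.2 = r.1.1) := fun hh => by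
      have hp := p.2
      have hr' := r.2
      have e1 : p.1.1 = p.1.2 := le_antisymm hp (by rw [hh.1, hh.2]; exact hr')
      exact h7 ⟨by rw [e1, hh.2], by rw [← e1, hh.1]⟩
    simp only [innerSL_apply_apply, h4]
    have e1 : ((if p.1.1 = r.1.1 then (1 : ℂ) else 0) * if p.1.2 = r.1.2 then (1 : ℂ) else 0) = 0 := by
      by_cases h9 : p.1.1 = r.1.1
      · rw [if_neg (fun h10 => h7 ⟨h9, h10⟩), mul_zero]
      · rw [if_neg h9, zero_mul]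
    have e2 : ((if p.1.1 = r.1.2 then (1 : ℂ) else 0) * if p.1.2 = r.1.1 then (1 : ℂ) else 0) = 0 := by
      by_cases h9 : p.1.1 = r.1.2
      · rw [if_neg (fun h10 => h8 ⟨h9, h10⟩), mul_zero]
      · rw [if_neg h9, zero_mul]
    rw [e1, e2, add_zero, mul_zero]
  · intro hp
    exact absurd (Finset.mem_univ p) hp

theorem sum_Dj (q : Idx V → ℂ) (F : V → ℂ) : ∑ i, q i * Dj i F = q (Sum.inl ()) * F 0 +
    ((∑ i, q (Sum.inr (Sum.inl i)) * fderiv ℂ F 0 (ob i)) +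
    ∑ p : {p : Fin (finrank ℂ V) × Fin (finrank ℂ V) // p.1 ≤ p.2}, q (Sum.inr (Sum.inr p)) *
      fderiv ℂ (fun z => fderiv ℂ F z (ob p.1.1)) 0 (ob p.1.2)) := by
  rw [Fintype.sum_sum_type, Fintype.sum_sum_type]
  simp [Dj]

omit [FiniteDimensional ℂ V] in
/-- Jets of a product `k g` with `k` vanishing at `0`. -/
theorem fderiv_mul_vanish {k g : V → ℂ} (hk : Differentiable ℂ k) (hg : Differentiable ℂ g)
    (h0 : k 0 = 0) (b : V) : fderiv ℂ (fun z => k z * g z) 0 b = fderiv ℂ k 0 b * g 0 := by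
  have := fderiv_mul (hk 0) (hg 0)
  rw [show (fun z => k z * g z) = k * g from rfl, this, h0, add_apply, smul_apply, smul_apply,
    smul_eq_mul, smul_eq_mul, zero_mul, zero_add, mul_comm]

omit [FiniteDimensional ℂ V] in
theorem fderiv_mul_apply' {k g : V → ℂ} (hk : Differentiable ℂ k) (hg : Differentiable ℂ g)
    (z b : V) : fderiv ℂ (fun z => k z * g z) z b = fderiv ℂ k z b * g z +
      k z * fderiv ℂ g z b := by
  have := fderiv_mul (hk z) (hg z)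
  rw [show (fun z => k z * g z) = k * g from rfl, this, add_apply, smul_apply,
    smul_apply, smul_eq_mul, smul_eq_mul]
  ring

theorem fderiv_fderiv_mul_vanish {k₁ k₂ g : V → ℂ} (h₁ : Differentiable ℂ k₁)
    (h₂ : Differentiable ℂ k₂) (hg : Differentiable ℂ g) (e₁ : k₁ 0 = 0) (e₂ : k₂ 0 = 0)
    (a b : V) : fderiv ℂ (fun z => fderiv ℂ (fun z => k₁ z * k₂ z * g z) z a) 0 b =
      (fderiv ℂ k₁ 0 a * fderiv ℂ k₂ 0 b + fderiv ℂ k₁ 0 b * fderiv ℂ k₂ 0 a) * g 0 := by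
  have d₁ := Pool.Agent.Helper88.JT.differentiable_fderiv_apply h₁ a
  have d₂ := Pool.Agent.Helper88.JT.differentiable_fderiv_apply h₂ a
  have dg := Pool.Agent.Helper88.JT.differentiable_fderiv_apply hg a
  have h12 : Differentiable ℂ (fun z => k₁ z * k₂ z) := h₁.mul h₂
  have hfun : (fun z => fderiv ℂ (fun z => k₁ z * k₂ z * g z) z a) = fun z =>
      k₂ z * (fderiv ℂ k₁ z a * g z) + (k₁ z * (fderiv ℂ k₂ z a * g z) +
        k₁ z * (k₂ z * fderiv ℂ g z a)) := by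
    funext z
    rw [fderiv_mul_apply' h12 hg, fderiv_mul_apply' h₁ h₂]
    ring
  have t1 : Differentiable ℂ (fun z => fderiv ℂ k₁ z a * g z) := d₁.mul hg
  have t2 : Differentiable ℂ (fun z => fderiv ℂ k₂ z a * g z) := d₂.mul hg
  have t3 : Differentiable ℂ (fun z => k₂ z * fderiv ℂ g z a) := h₂.mul dg
  have s1 : Differentiable ℂ (fun z => k₂ z * (fderiv ℂ k₁ z a * g z)) := h₂.mul t1
  have s2 : Differentiable ℂ (fun z => k₁ z * (fderiv ℂ k₂ z a * g z)) := h₁.mul t2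
  have s3 : Differentiable ℂ (fun z => k₁ z * (k₂ z * fderiv ℂ g z a)) := h₁.mul t3
  rw [hfun]
  have e := fderiv_add (s1 0) ((s2.add s3) 0)
  have e' := fderiv_add (s2 0) (s3 0)
  have e4 : fderiv ℂ (fun z => k₂ z * (fderiv ℂ k₁ z a * g z) + (k₁ z * (fderiv ℂ k₂ z a * g z) +
        k₁ z * (k₂ z * fderiv ℂ g z a))) 0 b = fderiv ℂ (fun z => k₂ z * (fderiv ℂ k₁ z a * g z)) 0 b +
        (fderiv ℂ (fun z => k₁ z * (fderiv ℂ k₂ z a * g z)) 0 b +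
        fderiv ℂ (fun z => k₁ z * (k₂ z * fderiv ℂ g z a)) 0 b) := by
    refine Eq.trans (congrArg (fun A : V →L[ℂ] ℂ => A b) e) ?_
    rw [add_apply, e', add_apply]
  rw [e4, fderiv_mul_vanish h₂ t1 e₂, fderiv_mul_vanish h₁ t2 e₁, fderiv_mul_vanish h₁ t3 e₁, e₂]
  ring

theorem sum_Dj_quad (q : Idx V → ℂ) {k₁ k₂ g : V → ℂ} (h₁ : Differentiable ℂ k₁)
    (h₂ : Differentiable ℂ k₂) (hg : Differentiable ℂ g) (e₁ : k₁ 0 = 0) (e₂ : k₂ 0 = 0) :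
    ∑ i, q i * Dj i (fun z => k₁ z * k₂ z * g z) =
      Bq q (fderiv ℂ k₁ 0) (fderiv ℂ k₂ 0) * g 0 := by
  rw [sum_Dj]
  have h3 : ∀ i, fderiv ℂ (fun z => k₁ z * k₂ z * g z) 0 (ob i) = 0 := by
    intro i
    have h12 : Differentiable ℂ (fun z => k₁ z * k₂ z) := h₁.mul h₂
    rw [fderiv_mul_vanish h12 hg (by simp [e₁]), fderiv_mul_vanish h₁ h₂ e₁, e₂]
    simp
  simp only [h3, e₁, zero_mul, mul_zero, Finset.sum_const_zero, zero_add]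
  unfold Bq
  rw [Finset.sum_mul]
  refine Finset.sum_congr rfl fun p _ => ?_
  rw [fderiv_fderiv_mul_vanish h₁ h₂ hg e₁ e₂]
  ring

theorem sum_Dj_lin (q : Idx V → ℂ) (hq : ∀ p, q (Sum.inr (Sum.inr p)) = 0) {k g : V → ℂ}
    (h₁ : Differentiable ℂ k) (hg : Differentiable ℂ g) (e₁ : k 0 = 0) :
    ∑ i, q i * Dj i (fun z => k z * g z) =
      (fderiv ℂ k 0) (∑ i, q (Sum.inr (Sum.inl i)) • ob i) * g 0 := by
  rw [sum_Dj]
  simp only [hq, e₁, zero_mul, mul_zero, Finset.sum_const_zero, zero_add, add_zero]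
  rw [map_sum, Finset.sum_mul]
  refine Finset.sum_congr rfl fun i _ => ?_
  rw [fderiv_mul_vanish h₁ hg e₁, map_smul, smul_eq_mul]
  ring

theorem sum_Dj_const (q : Idx V → ℂ) (hq : ∀ p, q (Sum.inr (Sum.inr p)) = 0)
    (hq' : ∀ i, q (Sum.inr (Sum.inl i)) = 0) (F : V → ℂ) :
    ∑ i, q i * Dj i F = q (Sum.inl ()) * F 0 := by
  rw [sum_Dj]
  simp [hq, hq']

theorem lin_ne_zero {q : Idx V → ℂ} {i : Fin (finrank ℂ V)} (hi : q (Sum.inr (Sum.inl i)) ≠ 0) :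
    ∑ i, q (Sum.inr (Sum.inl i)) • ob (V := V) i ≠ 0 := by
  intro h
  have h1 := (ob (V := V)).orthonormal.linearIndependent
  rw [Fintype.linearIndependent_iff] at h1
  exact hi (h1 _ h i)

/-- Quadratic part on a triple product of translates. -/
theorem T3_quad (q : Idx V → ℂ) {θ : V → ℂ} (hθ : Differentiable ℂ θ) {u₁ u₂ : V}
    (h₁ : θ u₁ = 0) (h₂ : θ u₂ = 0) (u₃ : V) : ∑ i, q i * Dj i (T3 θ u₁ u₂ u₃) =
      ((Real.exp (-(Real.pi * 1 / 2 * ‖u₁‖ ^ 2)) * Real.exp (-(Real.pi * 1 / 2 * ‖u₂‖ ^ 2)) *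
        Real.exp (-(Real.pi * 1 / 2 * ‖u₃‖ ^ 2)) : ℝ) : ℂ) *
        (Bq q (fderiv ℂ θ u₁) (fderiv ℂ θ u₂) * θ u₃) := by
  have e₁ : Tr 1 u₁ θ 0 = 0 := by rw [Tr_zero_apply, h₁, mul_zero]
  have e₂ : Tr 1 u₂ θ 0 = 0 := by rw [Tr_zero_apply, h₂, mul_zero]
  have h := sum_Dj_quad q (Tr_differentiable 1 u₁ hθ) (Tr_differentiable 1 u₂ hθ)
    (Tr_differentiable 1 u₃ hθ) e₁ e₂
  refine Eq.trans h ?_
  have h3 : Bq q (fderiv ℂ (Tr 1 u₁ θ) 0) (fderiv ℂ (Tr 1 u₂ θ) 0) =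
      ((Real.exp (-(Real.pi * 1 / 2 * ‖u₁‖ ^ 2)) : ℝ) : ℂ) *
      ((Real.exp (-(Real.pi * 1 / 2 * ‖u₂‖ ^ 2)) : ℝ) : ℂ) *
        Bq q (fderiv ℂ θ u₁) (fderiv ℂ θ u₂) := by
    unfold Bq
    rw [Finset.mul_sum]
    refine Finset.sum_congr rfl fun p _ => ?_
    rw [fderiv_Tr_zero 1 hθ h₁, fderiv_Tr_zero 1 hθ h₂, fderiv_Tr_zero 1 hθ h₁,
      fderiv_Tr_zero 1 hθ h₂]
    ring
  rw [h3, Tr_zero_apply]
  push_cast
  ring

/-- Linear part. -/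
theorem T3_lin (q : Idx V → ℂ) (hq : ∀ p, q (Sum.inr (Sum.inr p)) = 0) {θ : V → ℂ}
    (hθ : Differentiable ℂ θ) {u₁ : V} (h₁ : θ u₁ = 0) (u₂ u₃ : V) :
    ∑ i, q i * Dj i (T3 θ u₁ u₂ u₃) =
      ((Real.exp (-(Real.pi * 1 / 2 * ‖u₁‖ ^ 2)) * Real.exp (-(Real.pi * 1 / 2 * ‖u₂‖ ^ 2)) *
        Real.exp (-(Real.pi * 1 / 2 * ‖u₃‖ ^ 2)) : ℝ) : ℂ) *
        (fderiv ℂ θ u₁ (∑ i, q (Sum.inr (Sum.inl i)) • ob i) * (θ u₂ * θ u₃)) := by
  have e₁ : Tr 1 u₁ θ 0 = 0 := by rw [Tr_zero_apply, h₁, mul_zero]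
  have h := sum_Dj_lin q hq (Tr_differentiable 1 u₁ hθ) (g := fun z => Tr 1 u₂ θ z * Tr 1 u₃ θ z)
    ((Tr_differentiable 1 u₂ hθ).mul (Tr_differentiable 1 u₃ hθ)) e₁
  have h' : T3 θ u₁ u₂ u₃ = fun z => Tr 1 u₁ θ z * (Tr 1 u₂ θ z * Tr 1 u₃ θ z) := by
    funext z
    simp only [T3]
    ring
  rw [h']
  refine Eq.trans h ?_
  rw [fderiv_Tr_zero 1 hθ h₁, Tr_zero_apply, Tr_zero_apply]
  push_cast
  ring

theorem T3_const (q : Idx V → ℂ) (hq : ∀ p, q (Sum.inr (Sum.inr p)) = 0)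
    (hq' : ∀ i, q (Sum.inr (Sum.inl i)) = 0) (θ : V → ℂ) (u₁ u₂ u₃ : V) :
    ∑ i, q i * Dj i (T3 θ u₁ u₂ u₃) =
      ((Real.exp (-(Real.pi * 1 / 2 * ‖u₁‖ ^ 2)) * Real.exp (-(Real.pi * 1 / 2 * ‖u₂‖ ^ 2)) *
        Real.exp (-(Real.pi * 1 / 2 * ‖u₃‖ ^ 2)) : ℝ) : ℂ) *
        (q (Sum.inl ()) * (θ u₁ * θ u₂ * θ u₃)) := by
  rw [sum_Dj_const q hq hq']
  simp only [T3]
  rw [Tr_zero_apply, Tr_zero_apply, Tr_zero_apply]
  push_cast
  ring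

end Jets

end Pool.Agent.Helper7.JT
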